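import Pool.Agent.TH680.OR.Defs
import Pool.Agent.TH680.NPP.Chg
import Pool.Agent.TH680.DT.Subst

/-! Compression if `P = NP`. -/

set_option autoImplicit false

namespace Pool.Agent.TH680.OR

open Pool.Agent.NPC Pool.Agent.H620R2.Gauge Pool.Agent.H591R3.PHG Pool.Agent.H622R2
  Pool.Agent.W900.IE

/-- the list with the given code -/
def dcl (y : List Bool) : List (List Bool) := (unbits (List (List Bool)) y).getD []

theorem poly_dcl : Poly dcl := Poly.optGetD poly_unbits (NPC.Poly.const [])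

theorem dcl_bits (xs : List (List Bool)) : dcl (bits xs) = xs := by
  unfold dcl
  rw [unbits_bits, Option.getD_some]

theorem mem_length {xs : List (List Bool)} {x : List Bool} (h : x ∈ xs) :
    x.length ≤ (bits xs).length := by
  rw [bits_length]
  induction xs with
  | nil => simp at h
  | cons y ys ih =>
    rw [sz_list_cons]
    rcases List.mem_cons.1 h with rfl | h
    · have := length_lt_sz x
      omega
    · have := ih h
      omega

theorem isNP_some {O : Oracle} {L : Set (List Bool)} (hL : IsP O L) :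
    IsNP O {y | ∃ w : List Bool, w.length ≤ y.length ∧ (w ∈ dcl y ∧ w ∈ L)} := by
  have h1 : PA O (fun z => (unpair z).1 ∈ L) := by
    obtain ⟨V, hV, h⟩ := hL
    exact ⟨fun z => V (unpair z).1, hV.precomp poly_u1, fun z => h _⟩
  have h2 := pa_and_mem h1
  have h3 : IsP O {z | (unpair z).1 ∈ dcl (unpair z).2 ∧ (unpair z).1 ∈ L} := by
    obtain ⟨V, hV, h⟩ := h2
    refine ⟨V, hV, fun z => ?_⟩
    rw [← h z]
    beta_reduce
    rw [decide_eq_true_eq]
    rfl
  have h4 := NPP.isNP_ex (NPP.isNP_of_p h3) (m := fun y => y.length) (UPoly.length Poly.id)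
  have e : {y : List Bool | ∃ w : List Bool, w.length ≤ y.length ∧
      pairBits w y ∈ {z | (unpair z).1 ∈ dcl (unpair z).2 ∧ (unpair z).1 ∈ L}} =
      {y | ∃ w : List Bool, w.length ≤ y.length ∧ (w ∈ dcl y ∧ w ∈ L)} := by
    ext y
    simp only [Set.mem_ofPred_eq, unpair_pairBits]
  rwa [e] at h4
where
  pa_and_mem {O : Oracle} {L : Set (List Bool)} (h1 : PA O (fun z => (unpair z).1 ∈ L)) :
      PA O (fun z => decide ((unpair z).1 ∈ dcl (unpair z).2) = true ∧ (unpair z).1 ∈ L) :=
    NPP.pa_and h1 (Poly.dec_mem poly_u1 (poly_dcl.comp poly_u2))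

/-- if `P = NP` then everything in `P` can be compressed -/
theorem compr_of_p {O : Oracle} (hNP : ∀ L, IsNP O L → IsP O L) {L R : Set (List Bool)}
    (hL : IsP O L) {a b : List Bool} (ha : a ∈ R) (hb : b ∉ R) :
    ORCompression O L R ∧ ANDCompression O L R := by
  constructor
  · obtain ⟨V, hV, h⟩ := hNP _ (isNP_some hL)
    refine ⟨fun y => if V y = [true] then a else b, Polynomial.C (a.length + b.length),
      IsFP.comp (G := fun v => if v = [true] then a else b) (IsFP.of_poly (Poly.ite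
        (Poly.decide_eq Poly.id (NPC.Poly.const _)) (NPC.Poly.const _) (NPC.Poly.const _))) hV,
      fun xs _ => ⟨fun n _ => ?_, ?_⟩⟩
    · rw [Polynomial.eval_C]
      beta_reduce
      split_ifs <;> omega
    · beta_reduce
      have h1 := h (bits xs)
      rw [Set.mem_ofPred_eq, dcl_bits] at h1
      have h2 : (∃ w : List Bool, w.length ≤ (bits xs).length ∧ w ∈ xs ∧ w ∈ L) ↔
          ∃ x ∈ xs, x ∈ L :=
        ⟨fun ⟨w, _, h3, h4⟩ => ⟨w, h3, h4⟩, fun ⟨w, h3, h4⟩ => ⟨w, mem_length h3, h3, h4⟩⟩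
      rw [← h2, h1]
      split_ifs with h3
      · simp [ha, h3]
      · simp [hb, h3]
  · have hLc : IsP O Lᶜ := NPP.isP_compl hL
    obtain ⟨V, hV, h⟩ := hNP _ (isNP_some hLc)
    refine ⟨fun y => if V y = [true] then b else a, Polynomial.C (a.length + b.length),
      IsFP.comp (G := fun v => if v = [true] then b else a) (IsFP.of_poly (Poly.ite
        (Poly.decide_eq Poly.id (NPC.Poly.const _)) (NPC.Poly.const _) (NPC.Poly.const _))) hV,
      fun xs _ => ⟨fun n _ => ?_, ?_⟩⟩
    · rw [Polynomial.eval_C]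
      beta_reduce
      split_ifs <;> omega
    · beta_reduce
      have h1 := h (bits xs)
      rw [Set.mem_ofPred_eq, dcl_bits] at h1
      have h2 : (∃ w : List Bool, w.length ≤ (bits xs).length ∧ w ∈ xs ∧ w ∈ Lᶜ) ↔
          ¬ ∀ x ∈ xs, x ∈ L := by
        push Not
        exact ⟨fun ⟨w, _, h3, h4⟩ => ⟨w, h3, h4⟩, fun ⟨w, h3, h4⟩ => ⟨w, mem_length h3, h3, h4⟩⟩
      rw [h2] at h1
      split_ifs with h3
      · simp only [hb, false_iff]
        exact h1.2 h3
      · simp only [ha, true_iff]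
        by_contra h4
        exact h3 (h1.1 h4)

/-- hard languages are not trivial -/
theorem hard_ne {O : Oracle} {L : Set (List Bool)} (h : NPHardRel O L) :
    (∃ a, a ∈ L) ∧ ∃ b, b ∉ L := by
  have hu : IsNP O Set.univ := NPP.isNP_of_p ⟨fun _ => [true], IsFP.of_poly (NPC.Poly.const _),
    fun x => by simp⟩
  have he : IsNP O ∅ := NPP.isNP_of_p ⟨fun _ => [], IsFP.of_poly (NPC.Poly.const _),
    fun x => by simp⟩
  obtain ⟨f, _, hf⟩ := h _ hu
  obtain ⟨g, _, hg⟩ := h _ he
  exact ⟨⟨f [], (hf []).1 trivial⟩, ⟨g [], fun hcon => (hg []).2 hcon⟩⟩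

/-- if `P = NP` then all complete languages have distillations -/
theorem dist_of_eq {O : Oracle} (hNP : ∀ L, IsNP O L → IsP O L) {L : Set (List Bool)}
    (hL : NPCompleteRel O L) : ORDistillation O L ∧ ANDDistillation O L := by
  obtain ⟨⟨a, ha⟩, b, hb⟩ := hard_ne hL.2
  exact compr_of_p hNP (hNP _ hL.1) ha hb

/-- if `P = NP` then there are complete languages -/
theorem exists_complete {O : Oracle} (hNP : ∀ L, IsNP O L → IsP O L) :
    ∃ L, NPCompleteRel O L := by
  refine ⟨{[true]}, NPP.isNP_of_p ⟨fun x => x, IsFP.of_poly Poly.id, fun x => by simp⟩,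
    fun L' hL' => ?_⟩
  obtain ⟨V, hV, h⟩ := hNP _ hL'
  exact ⟨V, hV, fun x => by rw [h]; rfl⟩

end Pool.Agent.TH680.OR
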